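import Mathlib
import Pool.Agent.H16.Posted

set_option autoImplicit false

namespace Pool.Agent.Results.MP_ec2b5b_lc.Unbounded

open Pool.Agent.H16.Posted

/-- Posted pricing is not a constant-factor approximation: for every `C` some finite menu earns,
under every utility-maximising behaviour, more than `C` times a bound on all posted prices. -/
theorem result (C : ℝ) :
    ∃ (F G : Dist) (M : Finset (ℝ × ℝ)) (B : ℝ), 0 < B ∧ (∀ m ∈ M, 0 ≤ m.1 ∧ m.1 ≤ 1) ∧
      (∀ P, 0 ≤ P → postedRev F G P ≤ B) ∧ (∀ v c, ∃ o, Best M v c o) ∧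
      ∀ s : ℝ → ℝ → Option (ℝ × ℝ), (∀ v c, Best M v c (s v c)) → C * B < menuRev F G s := by
  obtain ⟨k, hk⟩ := exists_nat_gt (7 * C)
  have hK := K_pos k
  refine ⟨F0 k, G0 k, M0 k, 7 * K k, by linarith, M0_ok k, posted_le k, exists_best _,
    fun s hs => lt_of_lt_of_le ?_ (menu_ge k s hs)⟩
  nlinarith

end Pool.Agent.Results.MP_ec2b5b_lc.Unbounded
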